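import Pool.Agent.Helper50.AY.St
import Pool.Agent.Helper21.GD.M_WM

/-! Project AY, module WMA. -/

set_option autoImplicit false

namespace Pool.Agent.Helper67.AY

open Pool.Agent.Helper50.AY Pool.Agent.Helper43.GD Polynomial
open Pool.Agent.Helper21.GD
open scoped commutatorElement

theorem hWMA : StWMA := by
  intro L H _ _ x s hRg h1 hx hgp hperf u hE hF
  -- the torus element
  have hk0 := s.tor_of_weyl h1 hx
  rw [inv_one, mul_one, mul_one] at hk0
  set k : H := s.om x * (s.om 1)⁻¹ with hk
  -- the system modulo the centre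
  let π : H →* H ⧸ Subgroup.center H := QuotientGroup.mk' (Subgroup.center H)
  have hπ : ∀ g k : H, MulAut.conj g = MulAut.conj k → π g = π k := by
    intro g k h
    have := WM_conj g k h
    exact (QuotientGroup.eq.2 this).symm
  let s' : Sys L (H ⧸ Subgroup.center H) :=
    { E := fun a => π (s.E a)
      F := fun a => π (s.F a)
      Eadd := fun a b => by rw [s.Eadd, map_mul]
      Fadd := fun a b => by rw [s.Fadd, map_mul] }
  have hom : ∀ v : Lˣ, s'.om v = π (s.om v) := by
    intro v
    show π (s.E (v : L)) * π (s.F (-((v⁻¹ : Lˣ) : L))) * π (s.E (v : L)) = _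
    rw [← map_mul, ← map_mul]
    rfl
  have hW : s'.Weyl u := by
    constructor
    · intro a
      rw [hom]
      show π (s.om u) * π (s.E a) * (π (s.om u))⁻¹ = π (s.F _)
      rw [← map_mul, ← map_inv, ← map_mul]
      exact hπ _ _ (hE a)
    · intro a
      rw [hom]
      show π (s.om u) * π (s.F a) * (π (s.om u))⁻¹ = π (s.E _)
      rw [← map_mul, ← map_inv, ← map_mul]
      exact hπ _ _ (hF a)
  have hT : s'.IsTor (x * x) (π k) := by
    constructor
    · intro a
      show π k * π (s.E a) * (π k)⁻¹ = π (s.E _)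
      rw [← map_mul, ← map_inv, ← map_mul, hk0.1]
    · intro a
      show π k * π (s.F a) * (π k)⁻¹ = π (s.F _)
      rw [← map_mul, ← map_inv, ← map_mul, hk0.2]
  have hgp' : s'.gp = ⊤ := by
    have h5 : (s.gp).map π ≤ s'.gp := by
      unfold Sys.gp
      rw [MonoidHom.map_closure, Subgroup.closure_le]
      rintro _ ⟨y, (⟨a, rfl⟩ | ⟨b, rfl⟩), rfl⟩
      · exact Subgroup.subset_closure (Or.inl ⟨a, rfl⟩)
      · exact Subgroup.subset_closure (Or.inr ⟨b, rfl⟩)
    rw [hgp, ← MonoidHom.range_eq_map] at h5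
    rw [eq_top_iff]
    refine le_trans ?_ h5
    intro y _
    exact QuotientGroup.mk'_surjective _ y
  have hC' : π (s.om u * k * (s.om u)⁻¹ * k) ∈ Subgroup.center (H ⧸ Subgroup.center H) := by
    apply WM_cent s' hgp'
    have h6 := (WM_tor s' hW hT).mul s' hT
    rw [inv_mul_cancel, hom] at h6
    rw [map_mul, map_mul, map_mul, map_inv]
    exact h6
  have hC : s.om u * k * (s.om u)⁻¹ * k ∈ Subgroup.center H := by
    apply Pool.Agent.Helper60.DZ2.Red_grun hperf
    intro y
    have h7 : π ⁅s.om u * k * (s.om u)⁻¹ * k, y⁆ = 1 := by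
      rw [map_commutatorElement, commutatorElement_eq_one_iff_mul_comm]
      exact ((Subgroup.mem_center_iff.1 hC') (π y)).symm
    exact (QuotientGroup.eq_one_iff _).1 h7
  -- the units
  have hx1 : IsUnit ((x : L) * (x : L) - 1) := by
    rw [← sq]
    exact hRg.un
  have hinv : ((x⁻¹ : Lˣ) : L) * (x : L) = 1 := x.inv_mul
  constructor
  · apply WM_last s.E (fun a => s.F (-(((u⁻¹ : Lˣ) : L) * ((u⁻¹ : Lˣ) : L) * a))) (s.om u) k
      (((x * x : Lˣ) : L)) s.Eadd
    · intro a b
      rw [← s.Fadd]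
      congr 1
      ring
    · intro a
      exact WM_conj _ _ (hE a)
    · exact hk0.1
    · intro a
      have h8 := (hk0.inv).2 (-(((u⁻¹ : Lˣ) : L) * ((u⁻¹ : Lˣ) : L) * a))
      rw [inv_inv, inv_inv] at h8
      rw [h8]
      congr 1
      ring
    · exact hC
    · rw [Units.val_mul]
      exact hx1
  · apply WM_last s.F (fun b => s.E (-((u : L) * (u : L) * b))) (s.om u) k
      ((((x * x)⁻¹ : Lˣ) : L)) s.Fadd
    · intro a b
      rw [← s.Eadd]
      congr 1
      ring
    · intro a
      exact WM_conj _ _ (hF a)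
    · exact hk0.2
    · intro a
      have h8 := (hk0.inv).1 (-((u : L) * (u : L) * a))
      rw [inv_inv] at h8
      rw [h8]
      congr 1
      ring
    · exact hC
    · have h9 : ((((x * x)⁻¹ : Lˣ) : L)) - 1 =
          -((((x * x)⁻¹ : Lˣ) : L) * ((x : L) * (x : L) - 1)) := by
        rw [mul_inv, Units.val_mul]
        linear_combination (((x⁻¹ : Lˣ) : L) * (x : L) + 1) * hinv
      rw [h9]
      exact (((x * x)⁻¹ : Lˣ).isUnit.mul hx1).neg

end Pool.Agent.Helper67.AY
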